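import Pool.Agent.Q35.KC.Stm

/-! Project KC (helper35), job REG: all but finitely many fibres are regular. -/

set_option autoImplicit false
set_option linter.unusedSectionVars false
set_option linter.unusedVariables false

open MvPolynomial Pool.Agent.Y720.MZ

namespace Pool.Agent.Q275.KC

open Pool.Agent.Q35.KC

section gen

variable {F : Type*} [Field F] [CharZero F] {α : Type*} [Fintype α] [DecidableEq α]

omit [CharZero F] [Fintype α] [DecidableEq α] in
theorem pdc (i j : α) (f : MvPolynomial α F) : pderiv i (pderiv j f) = pderiv j (pderiv i f) := by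
  classical
  rcases eq_or_ne i j with rfl | hij
  · rfl
  refine MvPolynomial.ext _ _ fun m => ?_
  rw [coeff_pderiv, coeff_pderiv, coeff_pderiv, coeff_pderiv]
  have h1 : (m + Finsupp.single i 1 : α →₀ ℕ) j = m j := by
    rw [Finsupp.add_apply, Finsupp.single_eq_of_ne hij.symm, add_zero]
  have h2 : (m + Finsupp.single j 1 : α →₀ ℕ) i = m i := by
    rw [Finsupp.add_apply, Finsupp.single_eq_of_ne hij, add_zero]
  rw [h1, h2, add_right_comm]
  ring

omit [DecidableEq α] in
/-- translation along the line -/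
theorem rst_comp (g : MvPolynomial α F) (x e : α → F) (s : F) :
    rst g (fun a => x a + s * e a) e = (rst g x e).comp (Polynomial.X + Polynomial.C s) := by
  have : Infinite F := CharZero.infinite F
  apply Polynomial.funext
  intro t
  rw [rst_eval, Polynomial.eval_comp, rst_eval, Polynomial.eval_add, Polynomial.eval_X, Polynomial.eval_C]
  congr 1
  congr 1
  funext a
  simp only [Pi.add_apply, Pi.smul_apply, smul_eq_mul]
  ring

omit [DecidableEq α] in
theorem Tq_dc (g : MvPolynomial α F) (e z : α → F) :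
    Tq g e z = dc (MvPolynomial.eval z g) (cq g z e 0) (cq g z e 1) (cq g z e 2) (cq g z e 3) := rfl

omit [DecidableEq α] in
/-- the discriminant does not change along the line -/
theorem Tq_shift {g : MvPolynomial α F} {e : α → F} (h4 : ∀ z, (rst g z e).natDegree ≤ 4) (x : α → F) (s : F) :
    Tq g e (fun a => x a + s * e a) = Tq g e x := by
  have h1 := rst_comp g x e s
  rw [rst_qpol (h4 _), rst_qpol (h4 x)] at h1
  have h2 : (qpol (MvPolynomial.eval x g) (cq g x e 0) (cq g x e 1) (cq g x e 2) (cq g x e 3)).comp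
      (Polynomial.X + Polynomial.C s) =
      qpol (MvPolynomial.eval x g + s * cq g x e 0 + s ^ 2 * cq g x e 1 + s ^ 3 * cq g x e 2 + s ^ 4 * cq g x e 3)
      (cq g x e 0 + 2 * s * cq g x e 1 + 3 * s ^ 2 * cq g x e 2 + 4 * s ^ 3 * cq g x e 3)
      (cq g x e 1 + 3 * s * cq g x e 2 + 6 * s ^ 2 * cq g x e 3) (cq g x e 2 + 4 * s * cq g x e 3) (cq g x e 3) := by
    simp only [qpol, Polynomial.add_comp, Polynomial.mul_comp, Polynomial.C_comp, Polynomial.X_comp,
      Polynomial.pow_comp, map_add, map_mul, map_pow, map_ofNat]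
    ring
  rw [h2] at h1
  obtain ⟨e0, e1, e2, e3, e4⟩ := qpol_inj h1
  rw [Tq_dc, Tq_dc, e0, e1, e2, e3, e4, dc_shift]

omit [DecidableEq α] in
theorem gk_mul_X (p : MvPolynomial α F) (l : α) (e : α → F) (k : ℕ) :
    gk (p * X l) e k = gk p e k * X l + (if k = 0 then 0 else gk p e (k - 1) * C (e l)) := by
  unfold gk
  rw [map_mul, aeval_X, mul_add, Polynomial.coeff_add, Polynomial.coeff_mul_C, ← mul_assoc]
  congr 1
  rcases k with _ | k
  · rw [Polynomial.mul_coeff_zero, Polynomial.coeff_X_zero, mul_zero, if_pos rfl]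
  · rw [Polynomial.coeff_mul_X, Polynomial.coeff_mul_C, if_neg (Nat.succ_ne_zero k)]
    rfl

omit [DecidableEq α] in
theorem gk_add (p q : MvPolynomial α F) (e : α → F) (k : ℕ) : gk (p + q) e k = gk p e k + gk q e k := by
  unfold gk
  rw [map_add, Polynomial.coeff_add]

omit [DecidableEq α] in
theorem gk_C (a : F) (e : α → F) (k : ℕ) : gk (C a : MvPolynomial α F) e k = if k = 0 then C a else 0 := by
  unfold gk
  rw [aeval_C]
  have : (algebraMap F (Polynomial (MvPolynomial α F))) a = Polynomial.C (C a) := rfl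
  rw [this, Polynomial.coeff_C]

omit [CharZero F] [Fintype α] [DecidableEq α] in
theorem pd_X_C (j l : α) : ∃ c : F, pderiv j (X l : MvPolynomial α F) = C c := by
  classical
  rw [pderiv_X]
  by_cases h : l = j
  · subst h
    exact ⟨1, by simp⟩
  · exact ⟨0, by simp [h]⟩

omit [DecidableEq α] in
theorem gk_mul_Cst (p : MvPolynomial α F) (c : F) (e : α → F) (k : ℕ) : gk (p * C c) e k = gk p e k * C c := by
  unfold gk
  rw [map_mul, aeval_C]
  have : (algebraMap F (Polynomial (MvPolynomial α F))) c = Polynomial.C (C c) := rfl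
  rw [this, Polynomial.coeff_mul_C]

omit [DecidableEq α] in
/-- derivatives of the coefficients -/
theorem gk_pderiv (j : α) (e : α → F) (f : MvPolynomial α F) : ∀ k, pderiv j (gk f e k) = gk (pderiv j f) e k := by
  induction f using MvPolynomial.induction_on with
  | C a =>
    intro k
    rw [pderiv_C, gk_C]
    have h0 : gk (0 : MvPolynomial α F) e k = 0 := by
      unfold gk
      rw [map_zero, Polynomial.coeff_zero]
    rw [h0]
    split_ifs
    · exact pderiv_C
    · exact map_zero _
  | add p q hp hq =>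
    intro k
    rw [gk_add, map_add, hp, hq, map_add, gk_add]
  | mul_X p l hp =>
    intro k
    obtain ⟨c, hc⟩ := pd_X_C (F := F) j l
    have h1 : pderiv j (p * X l) = pderiv j p * X l + p * C c := by
      rw [pderiv_mul, hc]
    rw [h1, gk_add, gk_mul_X, gk_mul_X, gk_mul_Cst, map_add, pderiv_mul, hc, hp]
    rcases k with _ | k
    · simp
    · rw [if_neg (Nat.succ_ne_zero k), if_neg (Nat.succ_ne_zero k), pderiv_mul, pderiv_C, hp]
      ring

/-- a nonzero polynomial vanishes identically on finitely many lines only -/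
theorem lines_finite {N : MvPolynomial α F} (hN : N ≠ 0) (j : α) :
    {c : F | ∀ y : α → F, y j = c → MvPolynomial.eval y N = 0}.Finite := by
  classical
  have : Infinite F := CharZero.infinite F
  obtain ⟨y, hy⟩ : ∃ y : α → F, MvPolynomial.eval y N ≠ 0 := by
    by_contra hcon
    push Not at hcon
    exact hN (MvPolynomial.funext fun y => by rw [hcon y, map_zero])
  have hp : rst N y (Pi.single j 1) ≠ 0 := by
    intro h0
    apply hy
    have h1 := rst_eval N y (Pi.single j 1) 0
    rw [h0, Polynomial.eval_zero, zero_smul, add_zero] at h1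
    exact h1.symm
  refine (((rst N y (Pi.single j 1)).roots.toFinset.finite_toSet).image fun s => y j + s).subset ?_
  intro c hc
  refine ⟨c - y j, ?_, by ring⟩
  rw [Finset.mem_coe, Multiset.mem_toFinset, Polynomial.mem_roots hp, Polynomial.IsRoot.def, rst_eval]
  apply hc
  rw [Pi.add_apply, Pi.smul_apply, Pi.single_eq_same, smul_eq_mul]
  ring

/-- the degrees of the restrictions -/
theorem deg_lem (g : MvPolynomial α F) (i j : α) (h4 : ∀ z, (rst g z (Pi.single i 1)).natDegree ≤ 4)
    (h4' : ∀ z, (rst (pderiv j g) z (Pi.single i 1)).natDegree ≤ 4) :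
    ∃ N : MvPolynomial α F, N ≠ 0 ∧ ∀ y, MvPolynomial.eval y N ≠ 0 → Tq g (Pi.single i 1) y ≠ 0 →
      (rst (pderiv j g) y (Pi.single i 1)).natDegree ≤ (rst g y (Pi.single i 1)).natDegree := by
  by_cases hG : gk g (Pi.single i 1) 4 = 0
  · refine ⟨1, one_ne_zero, fun y _ hT => ?_⟩
    have h1 : (rst g y (Pi.single i 1)).coeff 4 = 0 := by rw [← gk_eval, hG, map_zero]
    have h2 : (rst (pderiv j g) y (Pi.single i 1)).coeff 4 = 0 := by
      rw [← gk_eval, ← gk_pderiv, hG, map_zero, map_zero]
    have h3 : (rst g y (Pi.single i 1)).coeff 3 ≠ 0 := by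
      intro h3
      apply hT
      have e3 : cq g y (Pi.single i 1) 3 = 0 := h1
      have e2 : cq g y (Pi.single i 1) 2 = 0 := h3
      rw [Tq_dc, e2, e3, dc, dsc]
      ring
    have h5 := Polynomial.le_natDegree_of_ne_zero h3
    refine le_trans ?_ h5
    by_contra hcon
    have h6 : (rst (pderiv j g) y (Pi.single i 1)).natDegree = 4 := by
      have := h4' y
      omega
    have h7 : (rst (pderiv j g) y (Pi.single i 1)).leadingCoeff = 0 := by
      rw [Polynomial.leadingCoeff, h6, h2]
    rw [Polynomial.leadingCoeff_eq_zero] at h7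
    rw [h7, Polynomial.natDegree_zero] at h6
    omega
  · refine ⟨_, hG, fun y hy _ => ?_⟩
    rw [gk_eval] at hy
    exact (h4' y).trans (Polynomial.le_natDegree_of_ne_zero hy)

/-- no divisibility at a good point -/
theorem no_dvd {g : MvPolynomial α F} {i j : α} {y : α → F}
    (hW : MvPolynomial.eval y g * MvPolynomial.eval y (pderiv i (pderiv j g)) ≠
      MvPolynomial.eval y (pderiv i g) * MvPolynomial.eval y (pderiv j g))
    (hd : (rst (pderiv j g) y (Pi.single i 1)).natDegree ≤ (rst g y (Pi.single i 1)).natDegree) :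
    ¬ rst g y (Pi.single i 1) ∣ rst (pderiv j g) y (Pi.single i 1) := by
  rintro ⟨R, hR⟩
  obtain ⟨Q, hQ⟩ : ∃ Q, Q = rst g y (Pi.single i 1) := ⟨_, rfl⟩
  obtain ⟨P, hP⟩ : ∃ P, P = rst (pderiv j g) y (Pi.single i 1) := ⟨_, rfl⟩
  have z0 : y + (0 : F) • (Pi.single i 1 : α → F) = y := by simp
  have hQ0 : Q.eval 0 = MvPolynomial.eval y g := by rw [hQ, rst_eval, z0]
  have hQ1 : (Polynomial.derivative Q).eval 0 = MvPolynomial.eval y (pderiv i g) := by
    rw [hQ, rst_deriv, rst_eval, z0, dd_single]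
  have hP0 : P.eval 0 = MvPolynomial.eval y (pderiv j g) := by
    rw [hP, rst_eval, z0]
  have hP1 : (Polynomial.derivative P).eval 0 = MvPolynomial.eval y (pderiv i (pderiv j g)) := by
    rw [hP, rst_deriv, rst_eval, z0, dd_single]
  rw [← hQ, ← hP] at hR hd
  apply hW
  rw [← hQ0, ← hQ1, ← hP0, ← hP1]
  by_cases hP00 : P = 0
  · rw [hP00, Polynomial.derivative_zero, Polynomial.eval_zero, mul_zero, mul_zero]
  have hQne : Q ≠ 0 := by
    rintro h
    rw [h, zero_mul] at hR
    exact hP00 hR
  have hRne : R ≠ 0 := by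
    rintro h
    rw [h, mul_zero] at hR
    exact hP00 hR
  have hRd : R.natDegree = 0 := by
    have h1 : P.natDegree = Q.natDegree + R.natDegree := by rw [hR, Polynomial.natDegree_mul hQne hRne]
    omega
  obtain ⟨c, hc⟩ : ∃ c, R = Polynomial.C c := ⟨_, Polynomial.eq_C_of_natDegree_eq_zero hRd⟩
  rw [hR, hc]
  simp only [Polynomial.derivative_mul, Polynomial.derivative_C, mul_zero, add_zero, Polynomial.eval_mul,
    Polynomial.eval_C]
  ring

end gen

theorem reg : S_REG := by
  intro K _ _ f hdeg hT hW F _ _ φ i j hij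
  have : Infinite F := CharZero.infinite F
  obtain ⟨g, hg⟩ : ∃ g : MvPolynomial (Fin 2) F, g = map φ f := ⟨_, rfl⟩
  rw [← hg]
  have hall : ∀ i j a : Fin 2, i ≠ j → a = i ∨ a = j := by decide
  have hdg : ∀ k, g.degreeOf k ≤ 4 := fun k => by rw [hg]; exact degreeOf_map_le φ (hdeg k)
  have h4 : ∀ k z, (rst g z (Pi.single k 1)).natDegree ≤ 4 := fun k z => deg_rst (hdg k) z
  have hs : ∀ k : Fin 2, (fun a => φ ((Pi.single k 1 : Fin 2 → K) a)) = Pi.single k 1 := by
    intro k
    funext a
    by_cases h : a = k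
    · subst h; simp
    · rw [Pi.single_eq_of_ne h, Pi.single_eq_of_ne h, map_zero]
  have hTP : ∀ k, TqP g (Pi.single k 1) ≠ 0 := by
    intro k h0
    obtain ⟨z, hz⟩ := hT k
    apply hz
    have h1 : map φ (TqP f (Pi.single k 1)) = 0 := by rw [TqP_map, hs, ← hg, h0]
    have h2 : TqP f (Pi.single k 1) = 0 := (map_injective φ φ.injective) (by rw [h1, map_zero])
    rw [← TqP_eval, h2, map_zero]
  have hWg : g * pderiv i (pderiv j g) - pderiv i g * pderiv j g ≠ 0 := by
    have h1 : f * pderiv i (pderiv j f) ≠ pderiv i f * pderiv j f := by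
      have h2 : ∀ i j : Fin 2, i ≠ j → (i = 0 ∧ j = 1) ∨ (i = 1 ∧ j = 0) := by decide
      rcases h2 i j hij with ⟨rfl, rfl⟩ | ⟨rfl, rfl⟩
      · exact hW
      · rw [pdc, mul_comm (pderiv 1 f)]
        exact hW
    intro h0
    apply sub_ne_zero.2 h1
    apply map_injective φ φ.injective
    rw [map_zero, map_sub, map_mul, map_mul, ← pderiv_map, ← pderiv_map, ← pderiv_map, ← hg]
    exact h0
  obtain ⟨N0, hN0, hdN⟩ := deg_lem g i j (h4 i) (fun z => deg_rst (degreeOf_pderiv_le (hdg i)) z)
  obtain ⟨N, hN⟩ : ∃ N, N = TqP g (Pi.single i 1) * TqP g (Pi.single j 1) *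
    (g * pderiv i (pderiv j g) - pderiv i g * pderiv j g) * N0 := ⟨_, rfl⟩
  have hNne : N ≠ 0 := by
    rw [hN]
    exact mul_ne_zero (mul_ne_zero (mul_ne_zero (hTP i) (hTP j)) hWg) hN0
  refine (lines_finite hNne j).subset ?_
  rintro c ⟨x, hxc, hx⟩ y hyc
  by_contra hy
  apply hx
  rw [hN, map_mul, map_mul, map_mul, TqP_eval, TqP_eval] at hy
  obtain ⟨hy1, hy2⟩ := ne_zero_and_ne_zero_of_mul hy
  obtain ⟨hy3, hy4⟩ := ne_zero_and_ne_zero_of_mul hy1
  obtain ⟨hy5, hy6⟩ := ne_zero_and_ne_zero_of_mul hy3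
  have hyx : y = fun a => x a + (y i - x i) * (Pi.single i 1 : Fin 2 → F) a := by
    funext a
    rcases hall i j a hij with rfl | rfl
    · rw [Pi.single_eq_same]
      ring
    · rw [Pi.single_eq_of_ne hij.symm, hyc, hxc]
      ring
  refine ⟨?_, fun k hk => ?_⟩
  · rw [hyx, Tq_shift (h4 i)] at hy5
    exact hy5
  · have hkj : k = j := (hall i j k hij).resolve_left hk
    rw [hkj]
    refine ⟨fun hdvd => ?_, ⟨y i - x i, ?_⟩⟩
    · rw [map_sub, map_mul, map_mul] at hy4
      refine no_dvd (sub_ne_zero.1 hy4) (hdN y hy2 hy5) ?_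
      rw [hyx, rst_comp, rst_comp]
      obtain ⟨R, hR⟩ := hdvd
      rw [hR, Polynomial.mul_comp]
      exact dvd_mul_right _ _
    · rw [← hyx]
      exact hy6

end Pool.Agent.Q275.KC
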